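import Pool.Agent.D0H67.CX.Stm4
import Pool.Agent.D0H67.SUB.Lev
import Pool.Agent.D0H67.SUB.Base

/-! # CX: ORB -/

set_option autoImplicit false
set_option linter.unusedSectionVars false
set_option linter.unusedVariables false

namespace Pool.Agent.D0H29.CX

open MvPolynomial Pool.Agent.W428.MOT Pool.Agent.TH192.MT Pool.Agent.D0H67.SUB
  Pool.Agent.D0H67.SUB.Lev
open Pool.Agent.D0H67.CX

namespace Orb

/-- Bezout -/
theorem bezout {σ : Type} [Fintype σ] (w : σ → ℕ) (h : ∀ k : ℕ, (∀ i, k ∣ w i) → k = 1) :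
    ∃ b c : σ → ℕ, ∑ i, b i * w i = ∑ i, c i * w i + 1 := by
  classical
  set I : Ideal ℤ := Ideal.span (Set.range fun i => (w i : ℤ)) with hI
  set g := Submodule.IsPrincipal.generator I with hg
  have hgI : Ideal.span {g} = I := Ideal.span_singleton_generator I
  have h1 : ∀ i, g ∣ (w i : ℤ) := by
    intro i
    rw [← Ideal.mem_span_singleton, hgI]
    exact Ideal.subset_span ⟨i, rfl⟩
  have h2 : g.natAbs = 1 := h _ fun i => Int.natAbs_dvd_natAbs.2 (h1 i) |>.trans (by simp)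
  have h3 : (1 : ℤ) ∈ I := by
    rw [← hgI, Ideal.mem_span_singleton]
    exact (Int.isUnit_iff_natAbs_eq.2 h2).dvd
  rw [hI, Ideal.mem_span_range_iff_exists_fun] at h3
  obtain ⟨β, hβ⟩ := h3
  refine ⟨fun i => (β i).toNat, fun i => (-β i).toNat, ?_⟩
  have h4 : ∀ i, ((β i).toNat : ℤ) - ((-β i).toNat : ℤ) = β i := fun i => by omega
  have h5 : (∑ i, ((β i).toNat : ℤ) * w i) = ∑ i, ((-β i).toNat : ℤ) * w i + 1 := by
    rw [← hβ, ← Finset.sum_add_distrib]
    refine Finset.sum_congr rfl fun i _ => ?_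
    rw [← add_mul]
    congr 1
    have := h4 i
    omega
  exact_mod_cast h5

variable {R : Type} [CommRing R]

/-- the class of `𝔾_m` -/
theorem chi_gm {K : Type} [Field K] (M : Meas K R) :
    M.χ (Fin 1) {x : Pt K (Fin 1) | x 0 ≠ 0} = M.L - 1 := by
  have h1 : Constr {x : Pt K (Fin 1) | x 0 = 0} := Constr.eqz (IsPF.coord 0)
  have h2 : Constr {x : Pt K (Fin 1) | x 0 ≠ 0} := h1.compl
  have h3 := M.add {x : Pt K (Fin 1) | x 0 ≠ 0} {x : Pt K (Fin 1) | x 0 = 0} h2 h1 (by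
    rw [Set.disjoint_left]
    intro x hx hx'
    exact hx hx')
  have h4 : {x : Pt K (Fin 1) | x 0 ≠ 0} ∪ {x : Pt K (Fin 1) | x 0 = 0} = Set.univ := by
    ext x
    simp only [Set.mem_union, Set.mem_ofPred_eq, Set.mem_univ, iff_true]
    exact (em (x 0 = 0)).symm
  have h5 : M.χ (Fin 1) {x : Pt K (Fin 1) | x 0 = 0} = 1 := by
    rw [← M.point (ι := Empty)]
    refine M.iso _ _ h1 Constr.univ (fun _ i => i.elim) (fun _ _ => 0) (fun i => i.elim)
      (fun i => IsPF.zero.isRF _) (fun _ _ => trivial) (fun _ _ => rfl) ?_ ?_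
    · intro z hz
      funext i
      rw [Subsingleton.elim i 0]
      have hz' : z 0 = 0 := hz
      exact hz'.symm
    · intro w _
      funext i
      exact i.elim
  rw [h4, h5] at h3
  unfold Meas.L
  rw [h3]
  ring

section

variable {σ : Type} [Fintype σ] (w b c : σ → ℕ) (u : Pt ℂ σ)

/-- the numerator of `ρ` -/
noncomputable def num (x : Pt ℂ σ) : AlgebraicClosure ℂ :=
  ∏ i, if w i = 0 then 1 else x i ^ b i * u i ^ c i

variable {w b c u}

theorem num_orb (ρ : AlgebraicClosure ℂ) {x : Pt ℂ σ} (hx : ∀ i, w i ≠ 0 → x i = ρ ^ w i * u i) :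
    num w b c u x = ρ ^ (∑ i, b i * w i) * ∏ i, if w i = 0 then 1 else u i ^ (b i + c i) := by
  unfold num
  rw [← Finset.prod_pow_eq_pow_sum, ← Finset.prod_mul_distrib]
  refine Finset.prod_congr rfl fun i _ => ?_
  by_cases h : w i = 0
  · rw [if_pos h, if_pos h, h, mul_zero, pow_zero, one_mul]
  · rw [if_neg h, if_neg h, hx i h, mul_pow, ← pow_mul, mul_comm (w i), pow_add]
    ring

theorem pu_ne (hu : ∀ i, w i ≠ 0 → u i ≠ 0) :
    (∏ i, if w i = 0 then (1 : AlgebraicClosure ℂ) else u i ^ (b i + c i)) ≠ 0 := by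
  refine Finset.prod_ne_zero_iff.2 fun i _ => ?_
  split_ifs with h
  · exact one_ne_zero
  · exact pow_ne_zero _ (hu i h)

theorem key (hbc : ∑ i, b i * w i = ∑ i, c i * w i + 1) (hu : ∀ i, w i ≠ 0 → u i ≠ 0)
    {ρ : AlgebraicClosure ℂ} (hρ : ρ ≠ 0) {x : Pt ℂ σ} (hx : ∀ i, w i ≠ 0 → x i = ρ ^ w i * u i) :
    num w c b u x ≠ 0 ∧ num w b c u x = ρ * num w c b u x := by
  rw [num_orb ρ hx, num_orb ρ hx, hbc]
  have h1 := pu_ne (b := c) (c := b) hu
  refine ⟨mul_ne_zero (pow_ne_zero _ hρ) h1, ?_⟩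
  have h2 : (∏ i, if w i = 0 then (1 : AlgebraicClosure ℂ) else u i ^ (b i + c i)) =
      ∏ i, if w i = 0 then (1 : AlgebraicClosure ℂ) else u i ^ (c i + b i) :=
    Finset.prod_congr rfl fun i _ => by rw [add_comm]
  rw [h2]
  ring

theorem pf_num {ι : Type} (φ : Pt ℂ ι → Pt ℂ σ) (hφ : ∀ i, IsPF fun z => φ z i) :
    IsPF fun z => num w b c u (φ z) := by
  unfold num
  refine IsPF.prod _ _ fun i _ => ?_
  by_cases h : w i = 0
  · simp only [if_pos h]
    exact IsPF.one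
  · simp only [if_neg h]
    exact ((hφ i).pow _).mul ((Base.pf_const _).pow _)

end

section

variable {σ : Type} [Fintype σ] (w : σ → ℕ) (u : Pt ℂ σ) (N a : ℕ)

/-- the set of jets -/
def ZO : Set (Pt ℂ (σ × Fin (N + 1))) :=
  {z : Pt ℂ (σ × Fin (N + 1)) | (jk z 0 = fun i => if w i = 0 then u i else 0) ∧
      (∀ i, w i ≠ 0 → ∀ k < a * w i, jk z k i = 0) ∧
      ∃ ρ : AlgebraicClosure ℂ, ρ ≠ 0 ∧ ∀ i, w i ≠ 0 → jk z (a * w i) i = ρ ^ w i * u i}

variable {w u N a}

theorem constr_ZO {b c : σ → ℕ} (hbc : ∑ i, b i * w i = ∑ i, c i * w i + 1)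
    (hu : ∀ i, w i ≠ 0 → u i ≠ 0) : Constr (ZO w u N a) := by
  classical
  set φ : Pt ℂ (σ × Fin (N + 1)) → Pt ℂ σ := fun z i => jk z (a * w i) i with hφ
  have hφp : ∀ i, IsPF fun z => φ z i := fun i => pf_jk _ i
  have h : ZO w u N a = {z : Pt ℂ (σ × Fin (N + 1)) |
      (∀ i, jk z 0 i = if w i = 0 then u i else 0) ∧
      ((∀ i, w i ≠ 0 → ∀ k < a * w i, jk z k i = 0) ∧
      ((∀ i, w i ≠ 0 → φ z i ≠ 0) ∧ (num w b c u (φ z) ≠ 0 ∧
        ∀ i, w i ≠ 0 → φ z i * num w c b u (φ z) ^ w i = num w b c u (φ z) ^ w i * u i)))} := by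
    ext z
    constructor
    · rintro ⟨h1, h2, ρ, hρ, h3⟩
      obtain ⟨h4, h5⟩ := key hbc hu hρ (x := φ z) h3
      refine ⟨fun i => congrFun h1 i, h2, fun i hi => ?_, ?_, fun i hi => ?_⟩
      · change jk z (a * w i) i ≠ 0
        rw [h3 i hi]
        exact mul_ne_zero (pow_ne_zero _ hρ) (hu i hi)
      · rw [h5]
        exact mul_ne_zero hρ h4
      · rw [h5, mul_pow]
        change jk z (a * w i) i * _ = _
        rw [h3 i hi]
        ring
    · rintro ⟨h1, h2, h3, h4, h5⟩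
      have h6 : num w c b u (φ z) ≠ 0 := by
        unfold num
        refine Finset.prod_ne_zero_iff.2 fun i _ => ?_
        split_ifs with h
        · exact one_ne_zero
        · exact mul_ne_zero (pow_ne_zero _ (h3 i h)) (pow_ne_zero _ (hu i h))
      refine ⟨funext h1, h2, num w b c u (φ z) / num w c b u (φ z), div_ne_zero h4 h6,
        fun i hi => ?_⟩
      rw [div_pow, div_mul_eq_mul_div, eq_div_iff (pow_ne_zero _ h6)]
      exact h5 i hi
  rw [h]
  refine Constr.and (Constr.all fun i => Constr.eq (pf_jk _ _) (Base.pf_const _))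
    (Constr.and (Constr.all fun i => Constr.imp' fun _ => Constr.allLt _ fun k _ =>
      Constr.eqz (pf_jk _ _)) (Constr.and (Constr.all fun i => Constr.imp' fun _ =>
        Constr.ne (hφp i) IsPF.zero) (Constr.and (Constr.ne (pf_num φ hφp) IsPF.zero)
          (Constr.all fun i => Constr.imp' fun _ => Constr.eq
            ((hφp i).mul ((pf_num φ hφp).pow _)) (((pf_num φ hφp).pow _).mul (Base.pf_const _))))))

/-- the free coordinates -/
def FC (w : σ → ℕ) (N a : ℕ) : Type := {p : σ × Fin (N + 1) // a * w p.1 < p.2}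

noncomputable instance : Fintype (FC w N a) := by
  classical
  exact inferInstanceAs (Fintype {p : σ × Fin (N + 1) // a * w p.1 < p.2})

theorem card_FC (ha : ∀ i, a * w i ≤ N) : Fintype.card (FC w N a) = ∑ i, (N - a * w i) := by
  classical
  have e : FC w N a ≃ Σ i : σ, {k : Fin (N + 1) // a * w i < k} :=
    { toFun := fun p => ⟨p.1.1, p.1.2, p.2⟩
      invFun := fun p => ⟨(p.1, p.2.1), p.2.2⟩
      left_inv := fun p => rfl
      right_inv := fun p => rfl }
  rw [Fintype.card_congr e, Fintype.card_sigma]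
  refine Finset.sum_congr rfl fun i _ => ?_
  rw [Fintype.card_subtype]
  have h : (Finset.univ.filter fun k : Fin (N + 1) => a * w i < (k : ℕ)) =
      Finset.Ioi (⟨a * w i, Nat.lt_succ_of_le (ha i)⟩ : Fin (N + 1)) := by
    ext k
    simp [Fin.lt_def]
  rw [h, Fin.card_Ioi]
  simp

/-- the set of the parameters -/
def TO (w : σ → ℕ) (N a : ℕ) : Set (Pt ℂ (Fin 1 ⊕ FC w N a)) :=
  {x | (fun i => x (Sum.inl i)) ∈ {y : Pt ℂ (Fin 1) | y 0 ≠ 0} ∧
    (fun i => x (Sum.inr i)) ∈ (Set.univ : Set (Pt ℂ (FC w N a)))}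

open Classical in
/-- from the parameters to the jets -/
noncomputable def back (w : σ → ℕ) (u : Pt ℂ σ) (N a : ℕ) (x : Pt ℂ (Fin 1 ⊕ FC w N a)) :
    Pt ℂ (σ × Fin (N + 1)) := fun p =>
  if h : a * w p.1 < p.2 then x (Sum.inr ⟨p, h⟩)
  else if (p.2 : ℕ) = a * w p.1 then x (Sum.inl 0) ^ w p.1 * u p.1 else 0

theorem jk_back (x : Pt ℂ (Fin 1 ⊕ FC w N a)) (i : σ) {k : ℕ} (hk : k ≤ a * w i)
    (ha : a * w i ≤ N) : jk (back w u N a x) k i =
      if k = a * w i then x (Sum.inl 0) ^ w i * u i else 0 := by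
  rw [jk_lt _ (by omega)]
  unfold back
  rw [dif_neg (by simpa using hk)]

theorem main (hw : ∀ k : ℕ, (∀ i, k ∣ w i) → k = 1) (hu : ∀ i, w i ≠ 0 → u i ≠ 0) (ha0 : 0 < a)
    (ha : ∀ i, a * w i ≤ N) : Constr (ZO w u N a) ∧ ∀ {R : Type} [CommRing R] (M : Meas ℂ R),
      M.χ _ (ZO w u N a) = (M.L - 1) * M.L ^ (∑ i, (N - a * w i)) := by
  classical
  obtain ⟨b, c, hbc⟩ := bezout w hw
  have hZ : Constr (ZO w u N a) := constr_ZO hbc hu
  refine ⟨hZ, fun {R} _ M => ?_⟩
  have h0 : Constr {y : Pt ℂ (Fin 1) | y 0 ≠ 0} := Constr.ne (IsPF.coord 0) IsPF.zero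
  have hT : Constr (TO w N a) := by
    refine Constr.and ?_ ?_
    · exact h0.preimage (fun z : Pt ℂ (Fin 1 ⊕ FC w N a) => fun i => z (Sum.inl i))
        fun i => IsPF.coord _
    · exact Constr.const True
  have h1 := M.prod {y : Pt ℂ (Fin 1) | y 0 ≠ 0} (Set.univ : Set (Pt ℂ (FC w N a))) h0 Constr.univ
  rw [chi_univ, chi_gm, card_FC ha] at h1
  rw [← h1]
  set φ : Pt ℂ (σ × Fin (N + 1)) → Pt ℂ σ := fun z i => jk z (a * w i) i with hφ
  have hφp : ∀ i, IsPF fun z => φ z i := fun i => pf_jk _ i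
  refine M.iso _ _ hZ hT (fun z => Sum.elim (fun _ => num w b c u (φ z) / num w c b u (φ z))
    fun p => z p.1) (back w u N a) ?_ ?_ ?_ ?_ ?_ ?_
  · rintro (i | p)
    · refine ((pf_num φ hφp).isRF _).div ((pf_num φ hφp).isRF _) ?_
      rintro z ⟨-, -, ρ, hρ, h3⟩
      exact (key hbc hu hρ (x := φ z) h3).1
    · exact (IsPF.coord p.1).isRF _
  · refine regularOn_poly (fun p => ?_) _
    unfold back
    by_cases h : a * w p.1 < p.2
    · simp only [dif_pos h]
      exact IsPF.coord _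
    · simp only [dif_neg h]
      split_ifs
      · exact ((IsPF.coord _).pow _).mul (Base.pf_const _)
      · exact IsPF.zero
  · rintro z ⟨-, -, ρ, hρ, h3⟩
    obtain ⟨h4, h5⟩ := key hbc hu hρ (x := φ z) h3
    refine ⟨?_, trivial⟩
    change num w b c u (φ z) / num w c b u (φ z) ≠ 0
    rw [h5, mul_div_cancel_right₀ _ h4]
    exact hρ
  · intro x hx
    have hx0 : x (Sum.inl 0) ≠ 0 := hx.1
    refine ⟨?_, fun i hi k hk => ?_, x (Sum.inl 0), hx0, fun i hi => ?_⟩
    · funext i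
      rw [jk_back x i (Nat.zero_le _) (ha i)]
      by_cases h : w i = 0
      · rw [if_pos (by rw [h, mul_zero]), if_pos h, h, pow_zero, one_mul]
      · rw [if_neg h, if_neg]
        have := Nat.mul_pos ha0 (Nat.pos_of_ne_zero h)
        omega
    · rw [jk_back x i hk.le (ha i), if_neg hk.ne]
    · rw [jk_back x i le_rfl (ha i), if_pos rfl]
  · rintro z ⟨h1, h2, ρ, hρ, h3⟩
    obtain ⟨h4, h5⟩ := key hbc hu hρ (x := φ z) h3
    funext p
    obtain ⟨i, k⟩ := p
    unfold back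
    by_cases h : a * w i < (k : ℕ)
    · simp only [dif_pos h]
      rfl
    · simp only [dif_neg h, Sum.elim_inl]
      have h6 : jk z k i = z (i, k) := jk_lt z k.2 i
      rw [← h6]
      have h7 : num w b c u (φ z) / num w c b u (φ z) = ρ := by
        rw [h5, mul_div_cancel_right₀ _ h4]
      rw [h7]
      split_ifs with h8
      · by_cases h9 : w i = 0
        · rw [h9, pow_zero, one_mul, h8, h9, mul_zero, h1]
          simp only [if_pos h9]
        · rw [h8, h3 i h9]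
      · by_cases h9 : w i = 0
        · rw [h9, mul_zero] at h h8
          omega
        · rw [h2 i h9 k (by omega)]
  · intro x hx
    have hx0 : x (Sum.inl 0) ≠ 0 := hx.1
    have h3 : ∀ i, w i ≠ 0 → φ (back w u N a x) i = x (Sum.inl 0) ^ w i * u i := by
      intro i hi
      change jk _ _ _ = _
      rw [jk_back x i le_rfl (ha i), if_pos rfl]
    obtain ⟨h4, h5⟩ := key hbc hu hx0 (x := φ (back w u N a x)) h3
    funext q
    rcases q with q | p
    · change num w b c u (φ (back w u N a x)) / num w c b u (φ (back w u N a x)) = _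
      rw [h5, mul_div_cancel_right₀ _ h4, Subsingleton.elim q 0]
    · change back w u N a x p.1 = _
      unfold back
      rw [dif_pos p.2]
      rfl

end

end Orb

theorem t_ORB : S_ORB := by
  intro σ _ w hw u hu N a ha0 ha
  exact Orb.main hw hu ha0 ha

end Pool.Agent.D0H29.CX
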