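import Pool.Agent.D0H67.CX.Stm5
import Pool.Agent.D0H87.CX.Rec

/-! # CX: PRODZ -/

set_option autoImplicit false
set_option linter.unusedSectionVars false
set_option linter.unusedVariables false

namespace Pool.Agent.D0H29.CX

open MvPolynomial Pool.Agent.W428.MOT Pool.Agent.TH192.MT Pool.Agent.D0H67.SUB
  Pool.Agent.D0H67.SUB.Lev
open Pool.Agent.D0H67.CX
open Pool.Agent.D0H87.CX.Rec (OS constr_OS chi_level)

namespace Prodz

theorem mul_low {F : Type} [Field F] {A B : PowerSeries F} {a b : ℕ}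
    (hA : ∀ i < a, PowerSeries.coeff i A = 0) (hB : ∀ j < b, PowerSeries.coeff j B = 0) :
    (∀ k < a + b, PowerSeries.coeff k (A * B) = 0) ∧
      PowerSeries.coeff (a + b) (A * B) = PowerSeries.coeff a A * PowerSeries.coeff b B := by
  constructor
  · intro k hk
    rw [PowerSeries.coeff_mul]
    refine Finset.sum_eq_zero fun p hp => ?_
    have h := Finset.HasAntidiagonal.mem_antidiagonal.1 hp
    by_cases h1 : p.1 < a
    · rw [hA _ h1, zero_mul]
    · rw [hB p.2 (by omega), mul_zero]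
  · rw [PowerSeries.coeff_mul, Finset.sum_eq_single (a, b)]
    · intro p hp hne
      have h := Finset.HasAntidiagonal.mem_antidiagonal.1 hp
      by_cases h1 : p.1 < a
      · rw [hA _ h1, zero_mul]
      · by_cases h2 : p.2 < b
        · rw [hB _ h2, mul_zero]
        · exfalso
          apply hne
          exact Prod.ext (by change p.1 = a; omega) (by change p.2 = b; omega)
    · intro h
      exact absurd (Finset.HasAntidiagonal.mem_antidiagonal.2 (rfl : (a, b).1 + (a, b).2 = a + b)) h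

variable {K : Type} [Field K] {R : Type} [CommRing R] (M : Meas K R)

theorem chi_empty {ι : Type} [Fintype ι] : M.χ ι (∅ : Set (Pt K ι)) = 0 := by
  have h2 := M.add (∅ : Set (Pt K ι)) ∅ Constr.empty Constr.empty (Set.disjoint_empty _)
  rw [Set.empty_union] at h2
  exact left_eq_add.1 h2

/-- finite disjoint unions -/
theorem chi_finset {ι : Type} [Fintype ι] {α : Type} (s : Finset α) (S : α → Set (Pt K ι)) :
    (∀ a ∈ s, Constr (S a)) → (∀ a ∈ s, ∀ b ∈ s, a ≠ b → Disjoint (S a) (S b)) →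
    Constr {z | ∃ a ∈ s, z ∈ S a} ∧ M.χ ι {z | ∃ a ∈ s, z ∈ S a} = ∑ a ∈ s, M.χ ι (S a) := by
  classical
  induction s using Finset.induction_on with
  | empty =>
    intro _ _
    have h : {z : Pt K ι | ∃ a ∈ (∅ : Finset α), z ∈ S a} = ∅ := by
      ext z
      simp
    rw [h, Finset.sum_empty]
    exact ⟨Constr.empty, chi_empty M⟩
  | insert a s ha ih =>
    intro hc hd
    obtain ⟨h1, h2⟩ := ih (fun b hb => hc b (Finset.mem_insert_of_mem hb))
      (fun b hb b' hb' => hd b (Finset.mem_insert_of_mem hb) b' (Finset.mem_insert_of_mem hb'))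
    have h : {z : Pt K ι | ∃ b ∈ insert a s, z ∈ S b} = S a ∪ {z | ∃ b ∈ s, z ∈ S b} := by
      ext z
      simp only [Finset.mem_insert, exists_eq_or_imp, Set.mem_ofPred_eq, Set.mem_union]
    have h3 : Disjoint (S a) {z | ∃ b ∈ s, z ∈ S b} := by
      rw [Set.disjoint_left]
      rintro z hz ⟨b, hb, hz'⟩
      exact Set.disjoint_left.1 (hd a (Finset.mem_insert_self _ _) b (Finset.mem_insert_of_mem hb)
        fun h => ha (h ▸ hb)) hz hz'
    have hca := hc a (Finset.mem_insert_self _ _)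
    rw [h, Finset.sum_insert ha, M.add _ _ hca h1 h3, h2]
    exact ⟨hca.union h1, rfl⟩

section

variable {σ τ J J' : Type}

/-- the two parts of a jet -/
def pl {N : ℕ} (z : Pt K ((σ ⊕ τ) × Fin (N + 1))) : Pt K (σ × Fin (N + 1)) :=
  fun p => z (Sum.inl p.1, p.2)

/-- the two parts of a jet -/
def pr {N : ℕ} (z : Pt K ((σ ⊕ τ) × Fin (N + 1))) : Pt K (τ × Fin (N + 1)) :=
  fun p => z (Sum.inr p.1, p.2)

theorem aeval_ext (g : J → MvPolynomial σ K) (g' : J' → MvPolynomial τ K) (q : J × J') {N : ℕ}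
    (z : Pt K ((σ ⊕ τ) × Fin (N + 1))) :
    aeval (ar z) (extG g g' q) = aeval (ar (pl z)) (g q.1) * aeval (ar (pr z)) (g' q.2) := by
  unfold extG
  rw [map_mul, aeval_rename, aeval_rename]
  rfl

theorem mem_iff (g : J → MvPolynomial σ K) (g' : J' → MvPolynomial τ K) {N : ℕ}
    (z : Pt K ((σ ⊕ τ) × Fin (N + 1))) :
    z ∈ JetF (extG g g') {0} N ↔ ∃ p ∈ Finset.HasAntidiagonal.antidiagonal N,
      pl z ∈ OS g {0} p.1 N ∧ pr z ∈ OS g' {0} p.2 N := by
  classical
  constructor
  · rintro ⟨h1, h2, q, h3⟩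
    rw [aeval_ext] at h3
    have hz : ∀ x, z (x, 0) = 0 := fun x => congrFun (Set.mem_singleton_iff.1 h1) x
    have hA : ∃ a, ∃ j, PowerSeries.coeff a (aeval (ar (pl z)) (g j)) ≠ 0 := by
      by_contra hcon
      push Not at hcon
      apply h3
      have h4 : aeval (ar (pl z)) (g q.1) = 0 := PowerSeries.ext fun a => by
        rw [hcon a q.1, map_zero]
      rw [h4, zero_mul, map_zero]
    have hB : ∃ b, ∃ l, PowerSeries.coeff b (aeval (ar (pr z)) (g' l)) ≠ 0 := by
      by_contra hcon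
      push Not at hcon
      apply h3
      have h4 : aeval (ar (pr z)) (g' q.2) = 0 := PowerSeries.ext fun a => by
        rw [hcon a q.2, map_zero]
      rw [h4, mul_zero, map_zero]
    have hA1 : ∀ j, ∀ k < Nat.find hA, PowerSeries.coeff k (aeval (ar (pl z)) (g j)) = 0 := by
      intro j k hk
      by_contra hne
      exact Nat.find_min hA hk ⟨j, hne⟩
    have hB1 : ∀ j, ∀ k < Nat.find hB, PowerSeries.coeff k (aeval (ar (pr z)) (g' j)) = 0 := by
      intro j k hk
      by_contra hne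
      exact Nat.find_min hB hk ⟨j, hne⟩
    obtain ⟨j, hj⟩ := Nat.find_spec hA
    obtain ⟨l, hl⟩ := Nat.find_spec hB
    have h5 : N ≤ Nat.find hA + Nat.find hB := by
      by_contra hcon
      have h6 := h2 (j, l) (Nat.find hA + Nat.find hB) (by omega)
      rw [aeval_ext, (mul_low (hA1 j) (hB1 l)).2] at h6
      exact mul_ne_zero hj hl h6
    have h6 : Nat.find hA + Nat.find hB ≤ N := by
      by_contra hcon
      exact h3 ((mul_low (hA1 q.1) (hB1 q.2)).1 N (by omega))
    refine ⟨(Nat.find hA, Nat.find hB), Finset.HasAntidiagonal.mem_antidiagonal.2 (le_antisymm h6 h5),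
      ⟨?_, hA1, j, hj⟩, ?_, hB1, l, hl⟩
    · exact Set.mem_singleton_iff.2 (funext fun i => hz _)
    · exact Set.mem_singleton_iff.2 (funext fun i => hz _)
  · rintro ⟨p, hp, ⟨h1, h2, j, hj⟩, h3, h4, l, hl⟩
    have hp' := Finset.HasAntidiagonal.mem_antidiagonal.1 hp
    refine ⟨?_, fun q k hk => ?_, (j, l), ?_⟩
    · refine Set.mem_singleton_iff.2 (funext fun x => ?_)
      rcases x with i | i
      · exact congrFun (Set.mem_singleton_iff.1 h1) i
      · exact congrFun (Set.mem_singleton_iff.1 h3) i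
    · rw [aeval_ext]
      exact (mul_low (h2 q.1) (h4 q.2)).1 k (by omega)
    · rw [aeval_ext]
      have h5 := (mul_low (h2 j) (h4 l)).2
      rw [hp'] at h5
      rw [h5]
      exact mul_ne_zero hj hl

variable [Fintype σ] [Fintype τ]

theorem chi_prod {N : ℕ} {S : Set (Pt K (σ × Fin (N + 1)))} {T : Set (Pt K (τ × Fin (N + 1)))}
    (hS : Constr S) (hT : Constr T) :
    Constr {z : Pt K ((σ ⊕ τ) × Fin (N + 1)) | pl z ∈ S ∧ pr z ∈ T} ∧
    M.χ _ {z : Pt K ((σ ⊕ τ) × Fin (N + 1)) | pl z ∈ S ∧ pr z ∈ T} = M.χ _ S * M.χ _ T := by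
  have h1 : Constr {z : Pt K ((σ ⊕ τ) × Fin (N + 1)) | pl z ∈ S ∧ pr z ∈ T} :=
    Constr.and (hS.preimage pl fun i => IsPF.coord _) (hT.preimage pr fun i => IsPF.coord _)
  refine ⟨h1, ?_⟩
  rw [← M.prod S T hS hT]
  have h2 : Constr {z : Pt K ((σ × Fin (N + 1)) ⊕ (τ × Fin (N + 1))) |
      (fun i => z (Sum.inl i)) ∈ S ∧ (fun i => z (Sum.inr i)) ∈ T} := by
    refine Constr.and ?_ ?_
    · exact hS.preimage (fun z : Pt K ((σ × Fin (N + 1)) ⊕ (τ × Fin (N + 1))) =>
        fun i => z (Sum.inl i)) fun i => IsPF.coord _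
    · exact hT.preimage (fun z : Pt K ((σ × Fin (N + 1)) ⊕ (τ × Fin (N + 1))) =>
        fun i => z (Sum.inr i)) fun i => IsPF.coord _
  refine M.iso _ _ h1 h2 (fun z => Sum.elim (pl z) (pr z))
    (fun w p => Sum.elim (fun i => w (Sum.inl (i, p.2))) (fun i => w (Sum.inr (i, p.2))) p.1)
    ?_ ?_ ?_ ?_ ?_ ?_
  · refine regularOn_poly (fun q => ?_) _
    rcases q with q | q
    · exact IsPF.coord (Sum.inl q.1, q.2)
    · exact IsPF.coord (Sum.inr q.1, q.2)
  · refine regularOn_poly (fun q => ?_) _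
    obtain ⟨q | q, k⟩ := q
    · exact IsPF.coord (Sum.inl (q, k))
    · exact IsPF.coord (Sum.inr (q, k))
  · intro z hz
    exact hz
  · intro w hw
    exact hw
  · intro z _
    funext q
    obtain ⟨q | q, k⟩ := q
    · rfl
    · rfl
  · intro w _
    funext q
    rcases q with q | q
    · rfl
    · rfl

end

end Prodz

open Prodz in
theorem t_PRODZ : S_PRODZ := by
  intro K _ σ τ J J' _ _ _ _ g g' R _ M v hv
  classical
  have h0 : Constr ({0} : Set (Pt K σ)) := by
    have h1 : ({0} : Set (Pt K σ)) = {x | ∀ i, x i = 0} := by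
      ext x
      rw [Set.mem_singleton_iff, funext_iff]
      rfl
    rw [h1]
    exact Constr.all fun i => Constr.eqz (IsPF.coord i)
  have h0' : Constr ({0} : Set (Pt K τ)) := by
    have h1 : ({0} : Set (Pt K τ)) = {x | ∀ i, x i = 0} := by
      ext x
      rw [Set.mem_singleton_iff, funext_iff]
      rfl
    rw [h1]
    exact Constr.all fun i => Constr.eqz (IsPF.coord i)
  ext N
  rw [PowerSeries.coeff_mul]
  unfold ZF
  simp only [PowerSeries.coeff_mk]
  have hJ : ∀ N, JetF g {0} N = OS g {0} N N := fun N => rfl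
  have hJ' : ∀ N, JetF g' {0} N = OS g' {0} N N := fun N => rfl
  have h1 : JetF (extG g g') {0} N = {z | ∃ p ∈ Finset.HasAntidiagonal.antidiagonal N,
      z ∈ {z : Pt K ((σ ⊕ τ) × Fin (N + 1)) | pl z ∈ OS g {0} p.1 N ∧
        pr z ∈ OS g' {0} p.2 N}} := Set.ext fun z => mem_iff g g' z
  obtain ⟨-, h2⟩ := chi_finset M (Finset.HasAntidiagonal.antidiagonal N)
    (fun p => {z : Pt K ((σ ⊕ τ) × Fin (N + 1)) | pl z ∈ OS g {0} p.1 N ∧
        pr z ∈ OS g' {0} p.2 N})
    (fun p _ => (chi_prod M (constr_OS g h0 p.1 N) (constr_OS g' h0' p.2 N)).1) (by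
      intro p hp q hq hne
      have hp' := Finset.HasAntidiagonal.mem_antidiagonal.1 hp
      have hq' := Finset.HasAntidiagonal.mem_antidiagonal.1 hq
      rw [Set.disjoint_left]
      rintro z ⟨⟨-, h3, j, hj⟩, -⟩ ⟨⟨-, h4, j', hj'⟩, -⟩
      rcases lt_trichotomy p.1 q.1 with h | h | h
      · exact hj (h4 j _ h)
      · apply hne
        exact Prod.ext h (by omega)
      · exact hj' (h3 j' _ h))
  rw [h1, h2, Finset.sum_mul]
  refine Finset.sum_congr rfl fun p hp => ?_
  have hp' := Finset.HasAntidiagonal.mem_antidiagonal.1 hp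
  rw [(chi_prod M (constr_OS g h0 p.1 N) (constr_OS g' h0' p.2 N)).2, hJ, hJ']
  obtain ⟨a, b⟩ := p
  change a + b = N at hp'
  subst hp'
  have h3 := chi_level g h0 M a b
  have h4 : M.χ _ (OS g' {0} b (a + b)) = M.χ _ (OS g' {0} b b) * M.L ^ (Fintype.card τ * a) := by
    have h5 := chi_level g' h0' M b a
    have h6 : ∀ n, n = b + a → M.χ (τ × Fin (n + 1)) (OS g' {0} b n) =
        M.χ _ (OS g' {0} b b) * M.L ^ (Fintype.card τ * a) := by
      rintro n rfl
      exact h5
    exact h6 _ (add_comm a b)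
  change M.χ _ (OS g {0} a (a + b)) * M.χ _ (OS g' {0} b (a + b)) * _ = _
  rw [h3, h4, Fintype.card_sum]
  have h7 : M.L ^ (Fintype.card σ * b) * v ^ (Fintype.card σ * b) = 1 := by
    rw [← mul_pow, hv, one_pow]
  have h8 : M.L ^ (Fintype.card τ * a) * v ^ (Fintype.card τ * a) = 1 := by
    rw [← mul_pow, hv, one_pow]
  have h9 : v ^ ((Fintype.card σ + Fintype.card τ) * (a + b)) =
      v ^ (Fintype.card σ * a) * v ^ (Fintype.card τ * b) *
        (v ^ (Fintype.card σ * b) * v ^ (Fintype.card τ * a)) := by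
    rw [← pow_add, ← pow_add, ← pow_add]
    congr 1
    ring
  rw [h9]
  calc M.χ _ (OS g {0} a a) * M.L ^ (Fintype.card σ * b) *
        (M.χ _ (OS g' {0} b b) * M.L ^ (Fintype.card τ * a)) *
        (v ^ (Fintype.card σ * a) * v ^ (Fintype.card τ * b) *
          (v ^ (Fintype.card σ * b) * v ^ (Fintype.card τ * a)))
      = M.χ _ (OS g {0} a a) * v ^ (Fintype.card σ * a) *
        (M.χ _ (OS g' {0} b b) * v ^ (Fintype.card τ * b)) *
        (M.L ^ (Fintype.card σ * b) * v ^ (Fintype.card σ * b)) *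
        (M.L ^ (Fintype.card τ * a) * v ^ (Fintype.card τ * a)) := by ring
    _ = _ := by rw [h7, h8, mul_one, mul_one]

end Pool.Agent.D0H29.CX
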